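import Mathlib
import Pool.Agent.BezRD.Main
set_option autoImplicit false

namespace Pool.Agent.Results.MP_41551b_al.BezoutNotRD

/-- Every finitely generated right ideal of `R` is cyclic. (A right ideal is an `Rᵐᵒᵖ`-submodule of `R`.) -/
def IsRightBezout (R : Type) [Ring R] : Prop :=
  ∀ I : Submodule Rᵐᵒᵖ R, I.FG → ∃ a : R, I = Submodule.span Rᵐᵒᵖ {a}

/-- Every finitely generated left ideal of `R` is cyclic. -/
def IsLeftBezout (R : Type) [Ring R] : Prop :=
  ∀ I : Submodule R R, I.FG → ∃ a : R, I = Submodule.span R {a}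

/-- A submodule `N` of a right module `M` is RD-pure: `N ∩ M r = N r` for all `r`. -/
def RDPure {R : Type} [Ring R] {M : Type} [AddCommGroup M] [Module Rᵐᵒᵖ M]
    (N : Submodule Rᵐᵒᵖ M) : Prop :=
  ∀ (r : R) (x : M), MulOpposite.op r • x ∈ N →
    ∃ y ∈ N, MulOpposite.op r • y = MulOpposite.op r • x

/-- A submodule `N` of a right module `M` is pure: every finite system of linear equations
`∑ i, x i * A i j = c j` with constants `c j` in `N` that has a solution in `M` has a solution in `N`. -/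
def PureSub {R : Type} [Ring R] {M : Type} [AddCommGroup M] [Module Rᵐᵒᵖ M]
    (N : Submodule Rᵐᵒᵖ M) : Prop :=
  ∀ (m n : ℕ) (A : Matrix (Fin m) (Fin n) R) (c : Fin n → M), (∀ j, c j ∈ N) →
    (∃ x : Fin m → M, ∀ j, ∑ i, MulOpposite.op (A i j) • x i = c j) →
    ∃ y : Fin m → M, (∀ i, y i ∈ N) ∧ ∀ j, ∑ i, MulOpposite.op (A i j) • y i = c j

/-- `R` is an RD ring: for right `R`-modules every RD-pure submodule is pure. -/
def IsRDRing (R : Type) [Ring R] : Prop :=
  ∀ (M : Type) [AddCommGroup M] [Module Rᵐᵒᵖ M] (N : Submodule Rᵐᵒᵖ M), RDPure N → PureSub N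

/-- There is a domain which is right Bezout and left Bezout and which is not an RD ring. -/
theorem result : ∃ (R : Type) (_ : Ring R),
    IsDomain R ∧ IsRightBezout R ∧ IsLeftBezout R ∧ ¬ IsRDRing R := by
  obtain ⟨R, hR, hd, hr, hl, M, _, _, N, h1, h2⟩ := Pool.Agent.BezRD.main
  exact ⟨R, hR, hd, hr, hl, fun h => h2 (h M N h1)⟩

end Pool.Agent.Results.MP_41551b_al.BezoutNotRD
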